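import Pool.Agent.H38.ZW.D0
import Pool.Agent.H38.ZW.D2

namespace H38.ZW

set_option maxRecDepth 100000

theorem B0 : blk 12 5632 2800 1400 [1151, 2015] S0 S2 = true := by decide +kernel

end H38.ZW
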