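import Pool.Agent.H38.ZW.D10
import Pool.Agent.H38.ZW.D12

namespace H38.ZW

set_option maxRecDepth 100000

theorem B10 : blk 12 5632 2800 1400 [2680, 2688] S10 S12 = true := by decide +kernel

end H38.ZW
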