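import Pool.Agent.H38.ZW.D6
import Pool.Agent.H38.ZW.D8

namespace H38.ZW

set_option maxRecDepth 100000

theorem B6 : blk 12 5632 2800 1400 [2399, 2636] S6 S8 = true := by decide +kernel

end H38.ZW
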