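import Pool.Agent.H38.ZW.Sta
import Pool.Agent.H38.ZW.B0
import Pool.Agent.H38.ZW.B2
import Pool.Agent.H38.ZW.B4
import Pool.Agent.H38.ZW.B6
import Pool.Agent.H38.ZW.B8
import Pool.Agent.H38.ZW.B10
import Pool.Agent.H38.ZW.B12

/-! The whole run, from its parts. -/

namespace H38.ZW

theorem run : Pool.H1.ZU.runAll 12 5632 2800 700 620 252 196 45 1449 1449 1137 89 2800
    [1151, 2015, 2356, 1858, 2738, 2713, 2399, 2636, 2614, 2774, 2680, 2688, 2730] gL = true := by
  have h10 := blk_glue 12 5632 2800 1400 2800 [2680, 2688] [2730] S10 S12 B10 B12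
  have h8 := blk_glue 12 5632 2800 1400 2800 [2614, 2774] [2680, 2688, 2730] S8 S10 B8 h10
  have h6 := blk_glue 12 5632 2800 1400 2800 [2399, 2636] [2614, 2774, 2680, 2688, 2730] S6 S8 B6 h8
  have h4 := blk_glue 12 5632 2800 1400 2800 [2738, 2713] [2399, 2636, 2614, 2774, 2680, 2688, 2730] S4 S6 B4 h6
  have h2 := blk_glue 12 5632 2800 1400 2800 [2356, 1858] [2738, 2713, 2399, 2636, 2614, 2774, 2680, 2688, 2730] S2 S4 B2 h4
  have h0 := blk_glue 12 5632 2800 1400 2800 [1151, 2015] [2356, 1858, 2738, 2713, 2399, 2636, 2614, 2774, 2680, 2688, 2730] S0 S2 B0 h2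
  exact start_glue 12 5632 2800 700 620 252 196 45 1449 1449 1137 89 2800 _ gL S0 start h0

end H38.ZW
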