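import Pool.Agent.H38.ZW.D0
import Pool.Agent.H38.ZW.Gdat

namespace H38.ZW

set_option maxRecDepth 100000

theorem start : startK 12 5632 2800 700 620 252 196 45 1449 1449 1137 89 gL
    (fun x => Pool.H1.ZU.eqN x S0) = true := by decide +kernel

end H38.ZW
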