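import Pool.Agent.H1.ZU.Top

/-! The check `runAll` cut into blocks of steps, with the intermediate lists given. -/

namespace H38.ZW

open Pool.H1.ZU

/-- one root squaring step, then continue with `k` -/
def stepK (n w u d Re Ro R2 e : ℕ) (k : List ℕ → Bool) (a : List ℕ) : Bool :=
  Nat.ble (Nat.succ ((2 * d + 1) * (Nat.shiftLeft 1 u + (2 * d + 1)) ^ 2 +
    Nat.shiftLeft 1 (u + e))) (Nat.shiftLeft 1 w) &&
  forceN (sqd (pkN n w (evens a)) (Nat.shiftLeft Re u)) (fun E2 =>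
  forceN (Nat.shiftLeft (sqd (pkN n w (odds a)) (Nat.shiftLeft Ro u)) w) (fun O2 =>
  forceN (Nat.add E2 (Nat.shiftLeft R2 (u + e))) (fun F =>
  Nat.ble O2 F && finN n w u d e (Nat.sub F O2) k)))

/-- several steps -/
def runK (n w u d Re Ro R2 : ℕ) (k : List ℕ → Bool) : List ℕ → List ℕ → Bool
  | [], a => k a
  | e :: es, a => stepK n w u d Re Ro R2 e (fun a' => runK n w u d Re Ro R2 k es a') a

theorem runN_append (n w u d v Re Ro R2 : ℕ) (fs : List ℕ) : ∀ es a,
    runN n w u d v Re Ro R2 (es ++ fs) a =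
      runK n w u d Re Ro R2 (fun a' => runN n w u d v Re Ro R2 fs a') es a
  | [], a => rfl
  | e :: es, a => by
    have h : (fun a' => runN n w u d v Re Ro R2 (es ++ fs) a') =
        (fun a' => runK n w u d Re Ro R2 (fun a' => runN n w u d v Re Ro R2 fs a') es a') := by
      funext a'
      exact runN_append n w u d v Re Ro R2 fs es a'
    rw [List.cons_append, runN, runK, stepK, h]

theorem finN_mono (n w u d e NN : ℕ) (k k' : List ℕ → Bool) (h : finN n w u d e NN k = true)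
    (hk : ∀ a, k a = true → k' a = true) : finN n w u d e NN k' = true := by
  rw [finN, forceLN_eq, forceLN_eq] at h ⊢
  simp only [Bool.and_eq_true] at h ⊢
  obtain ⟨h1, h2, h3, h4, h5⟩ := h
  exact ⟨h1, h2, h3, h4, hk _ h5⟩

theorem stepK_mono (n w u d Re Ro R2 e : ℕ) (k k' : List ℕ → Bool) (a : List ℕ)
    (h : stepK n w u d Re Ro R2 e k a = true) (hk : ∀ a, k a = true → k' a = true) :
    stepK n w u d Re Ro R2 e k' a = true := by
  rw [stepK, forceN_eq, forceN_eq, forceN_eq] at h ⊢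
  simp only [Bool.and_eq_true] at h ⊢
  obtain ⟨h1, h2, h3⟩ := h
  exact ⟨h1, h2, finN_mono _ _ _ _ _ _ _ _ h3 hk⟩

theorem runK_mono (n w u d Re Ro R2 : ℕ) (k k' : List ℕ → Bool)
    (hk : ∀ a, k a = true → k' a = true) : ∀ es a,
    runK n w u d Re Ro R2 k es a = true → runK n w u d Re Ro R2 k' es a = true
  | [], a, h => hk a h
  | e :: es, a, h => by
    rw [runK] at h ⊢
    exact stepK_mono _ _ _ _ _ _ _ _ _ _ _ h
      (fun a' => runK_mono n w u d Re Ro R2 k k' hk es a')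

/-- a block of steps from `a` to `b` -/
def blk (n w u d : ℕ) (es a b : List ℕ) : Bool :=
  forceN (pkN n w (rep (d + 1))) (fun Re => forceN (pkN n w (rep d)) (fun Ro =>
  forceN (pkN n w (rep (2 * d + 1))) (fun R2 => forceLN a (fun a' =>
  runK n w u d Re Ro R2 (fun x => eqN x b) es a'))))

/-- the last steps from `a` -/
def lst (n w u d v : ℕ) (es a : List ℕ) : Bool :=
  forceN (pkN n w (rep (d + 1))) (fun Re => forceN (pkN n w (rep d)) (fun Ro =>
  forceN (pkN n w (rep (2 * d + 1))) (fun R2 => forceLN a (fun a' =>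
  runN n w u d v Re Ro R2 es a'))))

theorem lst_eq (n w u d v : ℕ) (es a : List ℕ) : lst n w u d v es a =
    runN n w u d v (pkN n w (rep (d + 1))) (pkN n w (rep d)) (pkN n w (rep (2 * d + 1))) es a := by
  rw [lst, forceN_eq, forceN_eq, forceN_eq, forceLN_eq]

theorem blk_glue (n w u d v : ℕ) (es fs a b : List ℕ) (h : blk n w u d es a b = true)
    (hb : lst n w u d v fs b = true) : lst n w u d v (es ++ fs) a = true := by
  rw [lst_eq] at hb ⊢
  rw [runN_append]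
  rw [blk, forceN_eq, forceN_eq, forceN_eq, forceLN_eq] at h
  refine runK_mono _ _ _ _ _ _ _ _ _ (fun x hx => ?_) _ _ h
  rw [eqN_spec _ _ hx]
  exact hb

/-! ### the start -/

/-- start, then continue with `k` -/
def run0K (n w u d Re R2 uA uC e0 : ℕ) (NA NC : ℤ) (A C : List ℕ) (k : List ℕ → Bool) : Bool :=
  Nat.ble (Nat.succ ((d + 1) * ((Nat.shiftLeft 1 uA) ^ 2 + (Nat.shiftLeft 1 uC) ^ 2) +
    Nat.shiftLeft 1 (u + e0))) (Nat.shiftLeft 1 w) &&
  forceZ (NA * (Int.ofNat (pkN n w A.reverse) - Int.ofNat (Nat.shiftLeft Re uA)) +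
    NC * (Int.ofNat (pkN n w C.reverse) - Int.ofNat (Nat.shiftLeft Re uC)) +
    Int.ofNat (Nat.shiftLeft R2 (u + e0))) (fun F =>
  decide (0 ≤ F) && finN n w u d e0 (Int.toNat F) k)

theorem run0_eq (n w u d v Re Ro R2 uA uC e0 : ℕ) (es : List ℕ) (NA NC : ℤ) (A C : List ℕ) :
    run0 n w u d v Re Ro R2 uA uC e0 es NA NC A C =
      run0K n w u d Re R2 uA uC e0 NA NC A C (fun a => runN n w u d v Re Ro R2 es a) := rfl

theorem run0K_mono (n w u d Re R2 uA uC e0 : ℕ) (NA NC : ℤ) (A C : List ℕ)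
    (k k' : List ℕ → Bool) (h : run0K n w u d Re R2 uA uC e0 NA NC A C k = true)
    (hk : ∀ a, k a = true → k' a = true) :
    run0K n w u d Re R2 uA uC e0 NA NC A C k' = true := by
  rw [run0K, forceZ_eq] at h ⊢
  simp only [Bool.and_eq_true] at h ⊢
  obtain ⟨h1, h2, h3⟩ := h
  exact ⟨h1, h2, finN_mono _ _ _ _ _ _ _ _ h3 hk⟩

theorem digZ_mono (n w u len : ℕ) (N : ℤ) (Rl : ℕ) (k k' : List ℕ → Bool)
    (h : digZ n w u len N Rl k = true) (hk : ∀ a, k a = true → k' a = true) :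
    digZ n w u len N Rl k' = true := by
  rw [digZ, forceZ_eq, forceLN_eq] at h ⊢
  simp only [Bool.and_eq_true] at h ⊢
  obtain ⟨h1, h2, h3, h4, h5⟩ := h
  exact ⟨h1, h2, h3, h4, hk _ h5⟩

/-- the whole start, then continue with `K` -/
def startK (n w u k P a b c uA uC ug e0 : ℕ) (g : List ℕ) (K : List ℕ → Bool) : Bool :=
  forceN (pkN n w (rep (2 * k + 1))) (fun Re =>
  forceN (pkN n w (rep (2 * (2 * k) + 1))) (fun R2 =>
  forceZ (Int.ofNat (Nat.shiftLeft 1 w) - Int.ofNat (Nat.shiftLeft 1 (2 * w))) (fun t =>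
  forceZ (Int.ofNat (Nat.shiftLeft 1 P) * t ^ a * (t - 1) ^ b *
    (t ^ 4 - 2 * t ^ 3 + 4 * t ^ 2 - 3 * t + 1) ^ c) (fun NA =>
  forceZ (evZ (Int.ofNat (Nat.shiftLeft 1 ug)) t g) (fun NC =>
  Nat.ble (Nat.succ (2 ^ P * 2 ^ a * 3 ^ b * 55 ^ c + Nat.shiftLeft 1 uA)) (Nat.shiftLeft 1 w) &&
  (Nat.ble (Nat.succ (Nat.shiftLeft 1 (ug + k + 1) + Nat.shiftLeft 1 uC)) (Nat.shiftLeft 1 w) &&
  (digZ n w uA (2 * k + 1) NA Re (fun A => digZ n w uC (2 * k + 1) NC Re (fun C =>
    run0K n w u (2 * k) Re R2 uA uC e0 NA NC A C K)))))))))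

theorem start_glue (n w u k P a b c uA uC ug e0 v : ℕ) (es g s : List ℕ)
    (h : startK n w u k P a b c uA uC ug e0 g (fun x => eqN x s) = true)
    (hs : lst n w u (2 * k) v es s = true) :
    runAll n w u k P a b c uA uC ug e0 v es g = true := by
  rw [lst_eq] at hs
  rw [startK, forceN_eq, forceN_eq, forceZ_eq, forceZ_eq, forceZ_eq] at h
  rw [runAll, forceN_eq, forceN_eq, forceN_eq, forceZ_eq, forceZ_eq, forceZ_eq]
  simp only [Bool.and_eq_true] at h ⊢
  obtain ⟨h1, h2, h3⟩ := h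
  refine ⟨h1, h2, digZ_mono _ _ _ _ _ _ _ _ h3 (fun A hA => digZ_mono _ _ _ _ _ _ _ _ hA
    (fun C hC => ?_))⟩
  rw [run0_eq]
  refine run0K_mono _ _ _ _ _ _ _ _ _ _ _ _ _ _ _ hC (fun x hx => ?_)
  rw [eqN_spec _ _ hx]
  exact hs

/-! ### the lists -/

/-- a list from packed parts -/
def chs (m s : ℕ) : List ℕ → List ℕ
  | [] => []
  | c :: cs => unpN m (Nat.shiftLeft s (Nat.pred m)) c [] ++ chs m s cs

/-- a symmetric list from its first half -/
def mir (l : List ℕ) : List ℕ := l ++ l.reverse.tail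

end H38.ZW
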